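import Pool.Agent.BLBC.Core

set_option autoImplicit false

open Finset

namespace Pool.Agent.BLBC

section weight

variable {m : ℕ} {x y : ℕ → ℝ} (hx : ∀ i j, i < j → j < m → x i < x j)
  (hy : ∀ i j k, i < j → j < k → k < m →
    0 < (y j - y i) * (x k - x i) - (y k - y i) * (x j - x i))
  {s t : ℝ} {F : Finset (ℕ × ℕ)}
  (hF : ∀ e ∈ F, e.1 < e.2 ∧ e.2 < m ∧ ∃ τ : ℝ, 0 < τ ∧ τ < 1 ∧
    s = (1 - τ) * x e.1 + τ * x e.2 ∧ t = (1 - τ) * y e.1 + τ * y e.2)

include hy hF in
/-- Two different chords through a common point are not nested. -/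
theorem noNest {e e' : ℕ × ℕ} (he : e ∈ F) (he' : e' ∈ F) (h1 : e'.1 ≤ e.1) (h2 : e.2 ≤ e'.2) :
    e = e' := by
  by_contra hne
  obtain ⟨hlt, hm, τ, h0, hτ1, hs, ht⟩ := hF e he
  obtain ⟨hlt', hm', τ', h0', hτ1', hs', ht'⟩ := hF e' he'
  have hA : 0 ≤ (y e.1 - y e'.1) * (x e'.2 - x e'.1) - (y e'.2 - y e'.1) * (x e.1 - x e'.1) := by
    rcases Nat.eq_or_lt_of_le h1 with h | h
    · rw [h]; simp
    · exact (hy e'.1 e.1 e'.2 h (lt_of_lt_of_le hlt h2) hm').le
  have hB : 0 ≤ (y e.2 - y e'.1) * (x e'.2 - x e'.1) - (y e'.2 - y e'.1) * (x e.2 - x e'.1) := by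
    rcases Nat.eq_or_lt_of_le h2 with h | h
    · rw [h]; apply le_of_eq; ring
    · exact (hy e'.1 e.2 e'.2 (lt_of_le_of_lt h1 hlt) h hm').le
  have hsum : (1 - τ) * ((y e.1 - y e'.1) * (x e'.2 - x e'.1) -
      (y e'.2 - y e'.1) * (x e.1 - x e'.1)) +
      τ * ((y e.2 - y e'.1) * (x e'.2 - x e'.1) - (y e'.2 - y e'.1) * (x e.2 - x e'.1)) = 0 := by
    have e1 : (t - y e'.1) * (x e'.2 - x e'.1) - (y e'.2 - y e'.1) * (s - x e'.1) = 0 := by
      rw [hs', ht']; ring
    rw [hs, ht] at e1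
    linarith [e1]
  have hpos : 0 < (1 - τ) * ((y e.1 - y e'.1) * (x e'.2 - x e'.1) -
      (y e'.2 - y e'.1) * (x e.1 - x e'.1)) +
      τ * ((y e.2 - y e'.1) * (x e'.2 - x e'.1) - (y e'.2 - y e'.1) * (x e.2 - x e'.1)) := by
    rcases Nat.eq_or_lt_of_le h1 with h | h
    · rcases Nat.eq_or_lt_of_le h2 with h' | h'
      · exact absurd (Prod.ext h.symm h') hne
      · have := hy e'.1 e.2 e'.2 (lt_of_le_of_lt h1 hlt) h' hm'
        have h3 := mul_pos h0 this
        have h4 := mul_nonneg (by linarith : (0 : ℝ) ≤ 1 - τ) hA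
        linarith
    · have := hy e'.1 e.1 e'.2 h (lt_of_lt_of_le hlt h2) hm'
      have h3 := mul_pos (by linarith : (0 : ℝ) < 1 - τ) this
      have h4 := mul_nonneg h0.le hB
      linarith
  linarith

include hx hF in
theorem threshold {e e' : ℕ × ℕ} (he : e ∈ F) (he' : e' ∈ F) : e'.1 < e.2 := by
  obtain ⟨hlt, hm, τ, h0, hτ1, hs, -⟩ := hF e he
  obtain ⟨hlt', hm', τ', h0', hτ1', hs', -⟩ := hF e' he'
  by_contra hcon
  push Not at hcon
  have hA := hx e.1 e.2 hlt hm
  have hB := hx e'.1 e'.2 hlt' hm'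
  have h1 : s < x e.2 := by rw [hs]; nlinarith
  have h2 : x e'.1 < s := by rw [hs']; nlinarith
  have h3 : x e.2 ≤ x e'.1 := by
    rcases Nat.eq_or_lt_of_le hcon with h | h
    · rw [h]
    · exact (hx e.2 e'.1 h (lt_trans hlt' hm')).le
  linarith

include hx hy hF in
theorem card_le_length {e : ℕ × ℕ} (he : e ∈ F) : F.card ≤ e.2 - e.1 := by
  classical
  rw [← Nat.card_Ico]
  apply card_le_card_of_injOn (fun e' => if e.1 ≤ e'.1 then e'.1 else e'.2)
  · intro e' he'
    have he'' : e' ∈ F := he'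
    simp only [coe_Ico, Set.mem_Ico]
    split_ifs with h
    · exact ⟨h, threshold hx hF he he''⟩
    · refine ⟨(threshold hx hF he'' he).le, ?_⟩
      by_contra hcon
      push Not at hcon h
      have := noNest hy hF he he'' h.le hcon
      rw [this] at h
      exact lt_irrefl _ h
  · intro a ha b hb hab
    have ha' : a ∈ F := ha
    have hb' : b ∈ F := hb
    simp only at hab
    have same1 : a.1 = b.1 → a = b := by
      intro h
      rcases le_total a.2 b.2 with h2 | h2
      · exact noNest hy hF ha' hb' h.symm.le h2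
      · exact (noNest hy hF hb' ha' h.le h2).symm
    have same2 : a.2 = b.2 → a = b := by
      intro h
      rcases le_total b.1 a.1 with h2 | h2
      · exact noNest hy hF ha' hb' h2 h.le
      · exact (noNest hy hF hb' ha' h2 h.symm.le).symm
    split_ifs at hab with h1 h2 h2
    · exact same1 hab
    · exact absurd hab (ne_of_lt (threshold hx hF hb' ha'))
    · exact absurd hab.symm (ne_of_lt (threshold hx hF ha' hb'))
    · exact same2 hab

include hx hy hF in
/-- The chords through one point have total weight at most one. -/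
theorem weight_le_one : ∑ e ∈ F, 1 / ((e.2 : ℝ) - e.1) ≤ 1 := by
  rcases F.eq_empty_or_nonempty with h | h
  · rw [h]; simp
  · have hc : (0 : ℝ) < F.card := by exact_mod_cast card_pos.mpr h
    calc ∑ e ∈ F, 1 / ((e.2 : ℝ) - e.1) ≤ ∑ e ∈ F, 1 / (F.card : ℝ) := by
          apply sum_le_sum
          intro e he
          apply one_div_le_one_div_of_le hc
          have h1 := card_le_length hx hy hF he
          have h2 := (hF e he).1
          rw [← Nat.cast_sub h2.le]
          exact_mod_cast h1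
      _ = 1 := by
          rw [sum_const, nsmul_eq_mul]
          field_simp

end weight

/-- A linear functional `p.1 + θ p.2` which separates the points of a finite set. -/
theorem exists_theta (C : Finset (ℝ × ℝ)) :
    ∃ θ : ℝ, ∀ p ∈ C, ∀ q ∈ C, p.1 + θ * p.2 = q.1 + θ * q.2 → p = q := by
  classical
  obtain ⟨θ, hθ⟩ := Infinite.exists_notMem_finset
    ((C ×ˢ C).image (fun pq : (ℝ × ℝ) × (ℝ × ℝ) => (pq.2.1 - pq.1.1) / (pq.1.2 - pq.2.2)))
  refine ⟨θ, fun p hp q hq h => ?_⟩
  have h2 : p.2 = q.2 := by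
    by_contra hne
    apply hθ
    rw [mem_image]
    refine ⟨(p, q), mem_product.mpr ⟨hp, hq⟩, ?_⟩
    simp only
    have : p.2 - q.2 ≠ 0 := sub_ne_zero.mpr hne
    rw [div_eq_iff this]
    linarith
  have h1 : p.1 = q.1 := by rw [h2] at h; linarith
  exact Prod.ext h1 h2

/-- The key convexity fact: a point above the line `ab` and below the line `pr` is in the hull. -/
theorem mem_hull {S : Set (ℝ × ℝ)} (θ σ : ℝ) (hσ : σ ≠ 0) {a b p r q : ℝ × ℝ}
    (ha : a ∈ S) (hb : b ∈ S) (hp : p ∈ S) (hr : r ∈ S)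
    (X : ℝ × ℝ → ℝ) (Y : ℝ × ℝ → ℝ) (hX : ∀ z, X z = z.1 + θ * z.2) (hY : ∀ z, Y z = σ * z.2)
    (h1 : X a ≤ X p) (h2 : X p < X q) (h3 : X q < X r) (h4 : X r ≤ X b)
    (h5 : 0 ≤ (Y q - Y a) * (X b - X a) - (Y b - Y a) * (X q - X a))
    (h6 : (Y q - Y p) * (X r - X p) - (Y r - Y p) * (X q - X p) ≤ 0) :
    q ∈ convexHull ℝ S := by
  have hab : 0 < X b - X a := by linarith
  have hpr : 0 < X r - X p := by linarith
  set lam := (X q - X p) / (X r - X p) with hlam
  set mu := (X q - X a) / (X b - X a) with hmu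
  have hl0 : 0 ≤ lam := by rw [hlam]; apply div_nonneg <;> linarith
  have hl1 : lam ≤ 1 := by rw [hlam, div_le_one hpr]; linarith
  have hm0 : 0 ≤ mu := by rw [hmu]; apply div_nonneg <;> linarith
  have hm1 : mu ≤ 1 := by rw [hmu, div_le_one hab]; linarith
  set u : ℝ × ℝ := (1 - lam) • p + lam • r with hu
  set v : ℝ × ℝ := (1 - mu) • a + mu • b with hv
  have huS : u ∈ convexHull ℝ S :=
    (convex_convexHull ℝ S) (subset_convexHull ℝ S hp) (subset_convexHull ℝ S hr)
      (by linarith) hl0 (by ring)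
  have hvS : v ∈ convexHull ℝ S :=
    (convex_convexHull ℝ S) (subset_convexHull ℝ S ha) (subset_convexHull ℝ S hb)
      (by linarith) hm0 (by ring)
  have hXlin : ∀ (c : ℝ) (z w : ℝ × ℝ), X ((1 - c) • z + c • w) = (1 - c) * X z + c * X w := by
    intro c z w
    simp only [hX, Prod.fst_add, Prod.snd_add, Prod.smul_fst, Prod.smul_snd, smul_eq_mul]
    ring
  have hYlin : ∀ (c : ℝ) (z w : ℝ × ℝ), Y ((1 - c) • z + c • w) = (1 - c) * Y z + c * Y w := by
    intro c z w
    simp only [hY, Prod.snd_add, Prod.smul_snd, smul_eq_mul]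
    ring
  have hXu : X u = X q := by
    rw [hu, hXlin, hlam]; field_simp; ring
  have hXv : X v = X q := by
    rw [hv, hXlin, hmu]; field_simp; ring
  have hYu : Y q ≤ Y u := by
    rw [hu, hYlin]
    have : (Y u : ℝ) = Y u := rfl
    have e1 : lam * (X r - X p) = X q - X p := by rw [hlam]; field_simp
    have e2 : (Y q - ((1 - lam) * Y p + lam * Y r)) * (X r - X p) ≤ 0 := by
      have : (Y q - ((1 - lam) * Y p + lam * Y r)) * (X r - X p) =
          (Y q - Y p) * (X r - X p) - (Y r - Y p) * (lam * (X r - X p)) := by ring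
      rw [this, e1]; exact h6
    by_contra hcon
    push Not at hcon
    have := mul_pos (by linarith : 0 < Y q - ((1 - lam) * Y p + lam * Y r)) hpr
    linarith
  have hYv : Y v ≤ Y q := by
    rw [hv, hYlin]
    have e1 : mu * (X b - X a) = X q - X a := by rw [hmu]; field_simp
    have e2 : 0 ≤ (Y q - ((1 - mu) * Y a + mu * Y b)) * (X b - X a) := by
      have : (Y q - ((1 - mu) * Y a + mu * Y b)) * (X b - X a) =
          (Y q - Y a) * (X b - X a) - (Y b - Y a) * (mu * (X b - X a)) := by ring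
      rw [this, e1]; exact h5
    by_contra hcon
    push Not at hcon
    have := mul_pos (by linarith : 0 < ((1 - mu) * Y a + mu * Y b) - Y q) hab
    linarith
  -- q is between v and u
  have hext : ∀ z w : ℝ × ℝ, X z = X w → Y z = Y w → z = w := by
    intro z w hz hw
    rw [hY, hY] at hw
    have h2 : z.2 = w.2 := mul_left_cancel₀ hσ hw
    rw [hX, hX, h2] at hz
    exact Prod.ext (by linarith) h2
  rcases eq_or_lt_of_le (le_trans hYv hYu) with h | h
  · have : q = u := hext q u hXu.symm (by linarith)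
    rw [this]; exact huS
  · set nu := (Y q - Y v) / (Y u - Y v) with hnu
    have hn0 : 0 ≤ nu := by rw [hnu]; apply div_nonneg <;> linarith
    have hn1 : nu ≤ 1 := by rw [hnu, div_le_one (by linarith)]; linarith
    have : q = (1 - nu) • v + nu • u := by
      apply hext
      · rw [hXlin, hXu, hXv]; ring
      · rw [hYlin, hnu]
        have : Y u - Y v ≠ 0 := by linarith
        field_simp
        ring
    rw [this]
    exact (convex_convexHull ℝ S) hvS huS (by linarith) hn0 (by ring)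

/-- Half of a set in convex position is a strictly concave chain (in suitable coordinates). -/
theorem exists_half (C : Finset (ℝ × ℝ))
    (hC : ∀ q ∈ C, q ∉ convexHull ℝ ((C : Set (ℝ × ℝ)) \ {q})) :
    ∃ θ σ : ℝ, ∃ U : Finset (ℝ × ℝ), U ⊆ C ∧ C.card ≤ 2 * U.card ∧
      (∀ p ∈ U, ∀ q ∈ U, p.1 + θ * p.2 = q.1 + θ * q.2 → p = q) ∧
      (∀ p ∈ U, ∀ q ∈ U, ∀ r ∈ U, p.1 + θ * p.2 < q.1 + θ * q.2 → q.1 + θ * q.2 < r.1 + θ * r.2 →
        0 < (σ * q.2 - σ * p.2) * ((r.1 + θ * r.2) - (p.1 + θ * p.2)) -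
          (σ * r.2 - σ * p.2) * ((q.1 + θ * q.2) - (p.1 + θ * p.2))) := by
  classical
  obtain ⟨θ, hθ⟩ := exists_theta C
  rcases C.eq_empty_or_nonempty with hempty | hne
  · refine ⟨θ, 1, ∅, ?_, ?_, ?_, ?_⟩
    · simp
    · rw [hempty]; simp
    · intro p hp; simp at hp
    · intro p hp; simp at hp
  obtain ⟨a, haC, hamin⟩ := exists_min_image C (fun z => z.1 + θ * z.2) hne
  obtain ⟨b, hbC, hbmax⟩ := exists_max_image C (fun z => z.1 + θ * z.2) hne
  have key : ∀ σ : ℝ, σ ≠ 0 → ∀ U : Finset (ℝ × ℝ), U ⊆ C →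
      (∀ q ∈ U, 0 ≤ (σ * q.2 - σ * a.2) * ((b.1 + θ * b.2) - (a.1 + θ * a.2)) -
        (σ * b.2 - σ * a.2) * ((q.1 + θ * q.2) - (a.1 + θ * a.2))) →
      (∀ p ∈ U, ∀ q ∈ U, ∀ r ∈ U, p.1 + θ * p.2 < q.1 + θ * q.2 → q.1 + θ * q.2 < r.1 + θ * r.2 →
        0 < (σ * q.2 - σ * p.2) * ((r.1 + θ * r.2) - (p.1 + θ * p.2)) -
          (σ * r.2 - σ * p.2) * ((q.1 + θ * q.2) - (p.1 + θ * p.2))) := by
    intro σ hσ U hU hD p hp q hq r hr hpq hqr
    by_contra hcon
    push Not at hcon
    apply hC q (hU hq)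
    have hap := hamin p (hU hp)
    have hrb := hbmax r (hU hr)
    have nes : ∀ z : ℝ × ℝ, z.1 + θ * z.2 ≠ q.1 + θ * q.2 → z ≠ q := by
      intro z hz hzq
      exact hz (by rw [hzq])
    refine mem_hull θ σ hσ (a := a) (b := b) (p := p) (r := r)
      ⟨haC, nes a (by intro h; linarith)⟩
      ⟨hbC, nes b (by intro h; linarith)⟩
      ⟨hU hp, nes p (by intro h; linarith)⟩
      ⟨hU hr, nes r (by intro h; linarith)⟩
      (fun z => z.1 + θ * z.2) (fun z => σ * z.2) (fun z => rfl) (fun z => rfl)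
      hap hpq hqr hrb (hD q hq) hcon
  set D : ℝ × ℝ → ℝ := fun q => (q.2 - a.2) * ((b.1 + θ * b.2) - (a.1 + θ * a.2)) -
        (b.2 - a.2) * ((q.1 + θ * q.2) - (a.1 + θ * a.2)) with hDdef
  have hcard : C.card ≤ (C.filter (fun q => 0 ≤ D q)).card + (C.filter (fun q => D q ≤ 0)).card := by
    have : C ⊆ (C.filter (fun q => 0 ≤ D q)) ∪ (C.filter (fun q => D q ≤ 0)) := by
      intro q hq
      rw [mem_union, mem_filter, mem_filter]
      rcases le_total 0 (D q) with h | h
      · left; exact ⟨hq, h⟩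
      · right; exact ⟨hq, h⟩
    exact le_trans (card_le_card this) (card_union_le _ _)
  rcases le_total (C.filter (fun q => D q ≤ 0)).card (C.filter (fun q => 0 ≤ D q)).card with h | h
  · refine ⟨θ, 1, C.filter (fun q => 0 ≤ D q), filter_subset _ _, by omega, ?_, ?_⟩
    · intro p hp q hq hpq
      exact hθ p (mem_filter.mp hp).1 q (mem_filter.mp hq).1 hpq
    · apply key 1 one_ne_zero _ (filter_subset _ _)
      intro q hq
      have := (mem_filter.mp hq).2
      simp only [hDdef] at this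
      linarith
  · refine ⟨θ, -1, C.filter (fun q => D q ≤ 0), filter_subset _ _, by omega, ?_, ?_⟩
    · intro p hp q hq hpq
      exact hθ p (mem_filter.mp hp).1 q (mem_filter.mp hq).1 hpq
    · apply key (-1) (by norm_num) _ (filter_subset _ _)
      intro q hq
      have := (mem_filter.mp hq).2
      simp only [hDdef] at this
      linarith

end Pool.Agent.BLBC
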