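import Mathlib

set_option autoImplicit false

open Finset

namespace Pool.Agent.BLBC

theorem inner_sum (b : ℕ) : ∑ a ∈ range b, ((b : ℝ) - a) = (b : ℝ) * (b + 1) / 2 := by
  have h : ∀ n : ℕ, ∑ a ∈ range n, (a : ℝ) = (n : ℝ) * (n - 1) / 2 := by
    intro n
    induction n with
    | zero => simp
    | succ n ih => rw [sum_range_succ, ih]; push_cast; ring
  rw [sum_sub_distrib, h, sum_const, card_range, nsmul_eq_mul]
  ring

theorem outer_sum (l : ℕ) :
    ∑ b ∈ range l, ∑ a ∈ range b, ((b : ℝ) - a) = ((l : ℝ) ^ 3 - l) / 6 := by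
  simp_rw [inner_sum]
  induction l with
  | zero => simp
  | succ n ih => rw [sum_range_succ, ih]; push_cast; ring

/-- For a fixed pair of offsets `a < b` the pairs `(i + a D, i + b D)` are all different. -/
theorem offset_sum (a b K m : ℕ) (hab : a < b) (N : ℕ → ℕ) (hN : ∀ D, N D ≤ m)
    (E : Finset (ℕ × ℕ)) (hE : ∀ e ∈ E, e.1 < e.2) :
    ∑ D ∈ Icc 1 K, ∑ i ∈ range (N D),
      (if (i + a * D, i + b * D) ∈ E then 1 / (((b : ℝ) - a) * D) else 0)
      ≤ ∑ e ∈ E, 1 / ((e.2 : ℝ) - e.1) := by
  classical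
  have h1 : ∑ D ∈ Icc 1 K, ∑ i ∈ range (N D),
      (if (i + a * D, i + b * D) ∈ E then 1 / (((b : ℝ) - a) * D) else 0)
      ≤ ∑ D ∈ Icc 1 K, ∑ i ∈ range m,
      (if (i + a * D, i + b * D) ∈ E then 1 / (((b : ℝ) - a) * D) else 0) := by
    apply sum_le_sum
    intro D _
    apply sum_le_sum_of_subset_of_nonneg
    · intro i hi
      rw [mem_range] at hi ⊢
      exact lt_of_lt_of_le hi (hN D)
    · intro i _ _
      split_ifs
      · have : (0 : ℝ) < (b : ℝ) - a := by
          have : (a : ℝ) < b := by exact_mod_cast hab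
          linarith
        positivity
      · exact le_refl _
  refine le_trans h1 ?_
  rw [← sum_product', ← sum_filter]
  set T := (Icc 1 K ×ˢ range m).filter (fun x => (x.2 + a * x.1, x.2 + b * x.1) ∈ E) with hT
  have hinj : Set.InjOn (fun x : ℕ × ℕ => (x.2 + a * x.1, x.2 + b * x.1)) (T : Set (ℕ × ℕ)) := by
    rintro ⟨D, i⟩ _ ⟨D', i'⟩ _ h
    simp only [Prod.mk.injEq] at h
    obtain ⟨h1, h2⟩ := h
    have h3 : (b - a) * D = (b - a) * D' := by
      obtain ⟨c, rfl⟩ := Nat.exists_eq_add_of_lt hab
      have e1 : a + c + 1 - a = c + 1 := by omega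
      rw [e1]
      nlinarith [h1, h2]
    have h4 : D = D' := Nat.eq_of_mul_eq_mul_left (by omega) h3
    subst h4
    have h5 : i = i' := by omega
    subst h5
    rfl
  calc ∑ x ∈ T, 1 / (((b : ℝ) - a) * x.1)
      = ∑ x ∈ T, (fun e : ℕ × ℕ => 1 / ((e.2 : ℝ) - e.1)) (x.2 + a * x.1, x.2 + b * x.1) := by
        apply sum_congr rfl
        rintro ⟨D, i⟩ _
        simp only
        congr 1
        push_cast
        ring
    _ = ∑ e ∈ T.image (fun x : ℕ × ℕ => (x.2 + a * x.1, x.2 + b * x.1)),
          1 / ((e.2 : ℝ) - e.1) := by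
        rw [sum_image hinj]
    _ ≤ ∑ e ∈ E, 1 / ((e.2 : ℝ) - e.1) := by
        apply sum_le_sum_of_subset_of_nonneg
        · intro e he
          rw [mem_image] at he
          obtain ⟨x, hx, rfl⟩ := he
          rw [hT, mem_filter] at hx
          exact hx.2
        · intro e he _
          have := hE e he
          have h2 : (e.1 : ℝ) < e.2 := by exact_mod_cast this
          apply div_nonneg zero_le_one
          linarith

/-- The combinatorial core: if every arithmetic progression of length `l` in `{0,…,m-1}` contains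
an edge, then the edges have total weight at least `3 m log (m / 2l) / (l^3 - l)`, where an edge
`(i, j)` has weight `1 / (j - i)`. -/
theorem core (l m : ℕ) (hl : 2 ≤ l) (E : Finset (ℕ × ℕ)) (hE : ∀ e ∈ E, e.1 < e.2)
    (hP : ∀ D i : ℕ, 1 ≤ D → i + (l - 1) * D < m → ∃ b < l, ∃ a < b, (i + a * D, i + b * D) ∈ E) :
    3 * m * Real.log (m / (2 * l)) ≤ ((l : ℝ) ^ 3 - l) * ∑ e ∈ E, 1 / ((e.2 : ℝ) - e.1) := by
  classical
  have hW : 0 ≤ ∑ e ∈ E, 1 / ((e.2 : ℝ) - e.1) := by
    apply sum_nonneg
    intro e he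
    have h2 : (e.1 : ℝ) < e.2 := by exact_mod_cast hE e he
    apply div_nonneg zero_le_one
    linarith
  set W := ∑ e ∈ E, 1 / ((e.2 : ℝ) - e.1) with hWdef
  set K := m / (2 * l) with hK
  have hlpos : 0 < 2 * l := by omega
  have hKm : 2 * l * K ≤ m := by rw [hK]; exact Nat.mul_div_le m (2 * l)
  have hlog : Real.log (m / (2 * l)) ≤ ∑ D ∈ Icc 1 K, (1 : ℝ) / D := by
    have h1 : Real.log (((K + 1 : ℕ) : ℝ)) ≤ ((harmonic K : ℚ) : ℝ) := log_add_one_le_harmonic K
    have h2 : ((harmonic K : ℚ) : ℝ) = ∑ D ∈ Icc 1 K, (1 : ℝ) / D := by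
      rw [harmonic_eq_sum_Icc]
      push_cast
      apply sum_congr rfl
      intro D _
      rw [one_div]
    rw [← h2]
    refine le_trans ?_ h1
    rcases Nat.eq_zero_or_pos m with hm | hm
    · subst hm
      simp only [Nat.cast_zero, zero_div, Real.log_zero]
      apply Real.log_nonneg
      push_cast
      have : (0 : ℝ) ≤ K := Nat.cast_nonneg K
      linarith
    · apply Real.log_le_log
      · have : (0 : ℝ) < m := by exact_mod_cast hm
        have h3 : (0 : ℝ) < l := by exact_mod_cast (by omega : 0 < l)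
        positivity
      · have h3 : m < 2 * l * (K + 1) := by
          rw [hK]; exact Nat.lt_mul_div_succ m hlpos
        have h4 : (m : ℝ) < 2 * l * ((K + 1 : ℕ) : ℝ) := by exact_mod_cast h3
        have h5 : (0 : ℝ) < 2 * l := by exact_mod_cast hlpos
        rw [div_le_iff₀ h5]
        nlinarith
  -- counting for one scale
  have hscale : ∀ D ∈ Icc 1 K, (m : ℝ) / 2 * (1 / D) ≤
      ∑ b ∈ range l, ∑ a ∈ range b, ∑ i ∈ range (m - (l - 1) * D),
        ((b : ℝ) - a) * (if (i + a * D, i + b * D) ∈ E then 1 / (((b : ℝ) - a) * D) else 0) := by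
    intro D hD
    rw [mem_Icc] at hD
    have hDpos : (0 : ℝ) < D := by exact_mod_cast (by omega : 0 < D)
    have hcount : (m : ℝ) / 2 ≤ ((m - (l - 1) * D : ℕ) : ℝ) := by
      have h1 : (l - 1) * D ≤ l * K := Nat.mul_le_mul (by omega) hD.2
      have h2 : 2 * (l * K) ≤ m := by rw [← mul_assoc]; exact hKm
      have h3 : (l - 1) * D ≤ m := by omega
      rw [Nat.cast_sub h3]
      have h4 : (2 : ℝ) * (((l - 1) * D : ℕ) : ℝ) ≤ m := by
        have : 2 * ((l - 1) * D) ≤ m := by omega
        exact_mod_cast this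
      linarith
    calc (m : ℝ) / 2 * (1 / D) ≤ ((m - (l - 1) * D : ℕ) : ℝ) * (1 / D) := by
          apply mul_le_mul_of_nonneg_right hcount
          positivity
      _ = ∑ i ∈ range (m - (l - 1) * D), (1 / (D : ℝ)) := by
          rw [sum_const, card_range, nsmul_eq_mul]
      _ ≤ ∑ i ∈ range (m - (l - 1) * D), ∑ b ∈ range l, ∑ a ∈ range b,
            ((b : ℝ) - a) *
              (if (i + a * D, i + b * D) ∈ E then 1 / (((b : ℝ) - a) * D) else 0) := by
          apply sum_le_sum
          intro i hi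
          rw [mem_range] at hi
          obtain ⟨b, hb, a, ha, hab⟩ := hP D i hD.1 (by omega)
          have hnn : ∀ b' ∈ range l, ∀ a' ∈ range b', 0 ≤ ((b' : ℝ) - a') *
              (if (i + a' * D, i + b' * D) ∈ E then 1 / (((b' : ℝ) - a') * D) else 0) := by
            intro b' _ a' ha'
            rw [mem_range] at ha'
            have h2 : (0 : ℝ) < (b' : ℝ) - a' := by
              have : (a' : ℝ) < b' := by exact_mod_cast ha'
              linarith
            split_ifs
            · positivity
            · simp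
          have hba : (0 : ℝ) < (b : ℝ) - a := by
            have : (a : ℝ) < b := by exact_mod_cast ha
            linarith
          have hterm : 1 / (D : ℝ) = ((b : ℝ) - a) *
              (if (i + a * D, i + b * D) ∈ E then 1 / (((b : ℝ) - a) * D) else 0) := by
            rw [if_pos hab]
            field_simp
          rw [hterm]
          refine le_trans ?_ (single_le_sum (f := fun b' => ∑ a' ∈ range b', ((b' : ℝ) - a') *
              (if (i + a' * D, i + b' * D) ∈ E then 1 / (((b' : ℝ) - a') * D) else 0))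
              (fun b' hb' => sum_nonneg (hnn b' hb')) (mem_range.mpr hb))
          exact single_le_sum (f := fun a' => ((b : ℝ) - a') *
              (if (i + a' * D, i + b * D) ∈ E then 1 / (((b : ℝ) - a') * D) else 0))
              (fun a' ha' => hnn b (mem_range.mpr hb) a' ha') (mem_range.mpr ha)
      _ = _ := by
          rw [sum_comm]
          apply sum_congr rfl
          intro b _
          rw [sum_comm]
  have htotal : (m : ℝ) / 2 * ∑ D ∈ Icc 1 K, (1 : ℝ) / D ≤ ((l : ℝ) ^ 3 - l) / 6 * W := by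
    calc (m : ℝ) / 2 * ∑ D ∈ Icc 1 K, (1 : ℝ) / D
        = ∑ D ∈ Icc 1 K, (m : ℝ) / 2 * (1 / D) := by rw [mul_sum]
      _ ≤ ∑ D ∈ Icc 1 K, ∑ b ∈ range l, ∑ a ∈ range b, ∑ i ∈ range (m - (l - 1) * D),
            ((b : ℝ) - a) *
              (if (i + a * D, i + b * D) ∈ E then 1 / (((b : ℝ) - a) * D) else 0) :=
          sum_le_sum hscale
      _ = ∑ b ∈ range l, ∑ a ∈ range b, ((b : ℝ) - a) * ∑ D ∈ Icc 1 K,
            ∑ i ∈ range (m - (l - 1) * D),
              (if (i + a * D, i + b * D) ∈ E then 1 / (((b : ℝ) - a) * D) else 0) := by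
          rw [sum_comm]
          apply sum_congr rfl
          intro b _
          rw [sum_comm]
          apply sum_congr rfl
          intro a _
          rw [mul_sum]
          apply sum_congr rfl
          intro D _
          rw [mul_sum]
      _ ≤ ∑ b ∈ range l, ∑ a ∈ range b, ((b : ℝ) - a) * W := by
          apply sum_le_sum
          intro b _
          apply sum_le_sum
          intro a ha
          rw [mem_range] at ha
          have hba : (0 : ℝ) ≤ (b : ℝ) - a := by
            have : (a : ℝ) < b := by exact_mod_cast ha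
            linarith
          apply mul_le_mul_of_nonneg_left _ hba
          exact offset_sum a b K m ha (fun D => m - (l - 1) * D) (fun D => Nat.sub_le _ _) E hE
      _ = ((l : ℝ) ^ 3 - l) / 6 * W := by
          rw [← outer_sum, sum_mul]
          apply sum_congr rfl
          intro b _
          rw [sum_mul]
  have hm0 : (0 : ℝ) ≤ (m : ℝ) / 2 := by positivity
  have := mul_le_mul_of_nonneg_left hlog hm0
  linarith

end Pool.Agent.BLBC
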