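import Pool.Agent.BLBC.Chain
import Pool.Prelude.Def_F_81c36c8f

set_option autoImplicit false

open Finset N16549fb1

namespace Pool.Agent.BLBC

/-- `z` lies strictly between `x` and `y`. -/
def Btw (x y z : ℝ × ℝ) : Prop := ∃ t : ℝ, 0 < t ∧ t < 1 ∧ z = (1 - t) • x + t • y

theorem main (l : ℕ) (hl : 2 ≤ l) (A C : Finset (ℝ × ℝ)) (hCA : C ⊆ A)
    (hC : ∀ q ∈ C, q ∉ convexHull ℝ ((C : Set (ℝ × ℝ)) \ {q}))
    (hvis : ∀ S : Finset (ℝ × ℝ), S ⊆ C → S.card = l → ¬ PairwiseMutuallyVisible A S) :
    3 * (C.card : ℝ) * Real.log (C.card / (4 * l)) ≤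
      2 * ((l : ℝ) ^ 3 - l) * ((A \ C).card : ℝ) := by
  classical
  obtain ⟨θ, σ, U, hUC, hUcard, hUinj, hUconc⟩ := exists_half C hC
  set X : ℝ × ℝ → ℝ := fun z => z.1 + θ * z.2 with hX
  -- enumerate U
  set m := U.card with hm
  have hcardX : (U.image X).card = m := by
    rw [hm]
    exact card_image_of_injOn (fun p hp q hq h => hUinj p hp q hq h)
  have hex : ∀ i : Fin m, ∃ p ∈ U, X p = (U.image X).orderEmbOfFin hcardX i := by
    intro i
    have := Finset.orderEmbOfFin_mem (U.image X) hcardX i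
    rw [mem_image] at this
    exact this
  choose P hPU hPX using hex
  set p : ℕ → ℝ × ℝ := fun i => if h : i < m then P ⟨i, h⟩ else 0 with hp
  have hpU : ∀ i, i < m → p i ∈ U := by
    intro i hi
    rw [hp]; simp only [dif_pos hi]; exact hPU _
  have hxmono : ∀ i j, i < j → j < m → X (p i) < X (p j) := by
    intro i j hij hj
    have hi : i < m := lt_trans hij hj
    rw [hp]; simp only [dif_pos hi, dif_pos hj]
    rw [hPX, hPX]
    apply ((U.image X).orderEmbOfFin hcardX).strictMono
    exact hij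
  have hpinj : ∀ i j, i < m → j < m → p i = p j → i = j := by
    intro i j hi hj h
    rcases lt_trichotomy i j with h1 | h1 | h1
    · have := hxmono i j h1 hj; rw [h] at this; exact absurd this (lt_irrefl _)
    · exact h1
    · have := hxmono j i h1 hi; rw [h] at this; exact absurd this (lt_irrefl _)
  have hconc : ∀ i j k, i < j → j < k → k < m →
      0 < (σ * (p j).2 - σ * (p i).2) * (X (p k) - X (p i)) -
        (σ * (p k).2 - σ * (p i).2) * (X (p j) - X (p i)) := by
    intro i j k hij hjk hk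
    exact hUconc (p i) (hpU i (by omega)) (p j) (hpU j (by omega)) (p k) (hpU k hk)
      (hxmono i j hij (by omega)) (hxmono j k hjk hk)
  -- blocked pairs
  set E : Finset (ℕ × ℕ) := (range m ×ˢ range m).filter
    (fun e => e.1 < e.2 ∧ ∃ z ∈ A \ C, Btw (p e.1) (p e.2) z) with hE
  have hElt : ∀ e ∈ E, e.1 < e.2 := by
    intro e he; rw [hE, mem_filter] at he; exact he.2.1
  -- points of C never block
  have hCblock : ∀ x ∈ C, ∀ y ∈ C, x ≠ y → ∀ z ∈ C, ¬ Btw x y z := by
    rintro x hx y hy hxy z hz ⟨t, h0, h1, hzt⟩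
    apply hC z hz
    have hzx : x ≠ z := by
      intro h
      rw [← h] at hzt
      apply hxy
      have : t • (y - x) = 0 := by
        have e : t • (y - x) = ((1 - t) • x + t • y) - x := by
          rw [smul_sub, sub_smul, one_smul]; abel
        rw [e, ← hzt, sub_self]
      rcases smul_eq_zero.mp this with h' | h'
      · linarith
      · exact (sub_eq_zero.mp h').symm
    have hzy : y ≠ z := by
      intro h
      rw [← h] at hzt
      apply hxy
      have : (1 - t) • (x - y) = 0 := by
        have e : (1 - t) • (x - y) = ((1 - t) • x + t • y) - y := by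
          rw [smul_sub, sub_smul, sub_smul, one_smul, one_smul]; abel
        rw [e, ← hzt, sub_self]
      rcases smul_eq_zero.mp this with h' | h'
      · linarith
      · exact sub_eq_zero.mp h'
    have hxS : x ∈ ((C : Set (ℝ × ℝ)) \ {z}) := ⟨hx, hzx⟩
    have hyS : y ∈ ((C : Set (ℝ × ℝ)) \ {z}) := ⟨hy, hzy⟩
    rw [hzt]
    exact (convex_convexHull ℝ _) (subset_convexHull ℝ _ (by rw [← hzt]; exact hxS))
      (subset_convexHull ℝ _ (by rw [← hzt]; exact hyS)) (by linarith) h0.le (by ring)
  have hsymm : ∀ x y z, Btw x y z → Btw y x z := by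
    rintro x y z ⟨t, h0, h1, h⟩
    refine ⟨1 - t, by linarith, by linarith, ?_⟩
    rw [h, add_comm]
    congr 2
    ring
  have hprog : ∀ D i : ℕ, 1 ≤ D → i + (l - 1) * D < m →
      ∃ b < l, ∃ a < b, (i + a * D, i + b * D) ∈ E := by
    intro D i hD hi
    have hlt : ∀ a, a < l → i + a * D < m := by
      intro a ha
      have : a * D ≤ (l - 1) * D := Nat.mul_le_mul_right D (by omega)
      omega
    have hinjf : ∀ a, a < l → ∀ b, b < l → p (i + a * D) = p (i + b * D) → a = b := by
      intro a ha b hb h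
      have h1 := hpinj _ _ (hlt a ha) (hlt b hb) h
      have h2 : a * D = b * D := by omega
      exact Nat.eq_of_mul_eq_mul_right (by omega) h2
    set S := (range l).image (fun a => p (i + a * D)) with hS
    have hScard : S.card = l := by
      rw [hS, card_image_of_injOn, card_range]
      intro a ha b hb h
      exact hinjf a (by simpa using ha) b (by simpa using hb) h
    have hSC : S ⊆ C := by
      intro z hz
      rw [hS, mem_image] at hz
      obtain ⟨a, ha, rfl⟩ := hz
      exact hUC (hpU _ (hlt a (by simpa using ha)))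
    have hnv := hvis S hSC hScard
    unfold PairwiseMutuallyVisible at hnv
    rw [not_and] at hnv
    have hnv2 := hnv (hSC.trans hCA)
    push Not at hnv2
    obtain ⟨x, hx, y, hy, hxy, hnot⟩ := hnv2
    have hblk : ∃ z ∈ A \ C, Btw x y z := by
      unfold MutuallyVisible at hnot
      rw [not_and, not_and, not_and] at hnot
      have h1 := hnot (hCA (hSC hx)) (hCA (hSC hy)) hxy
      push Not at h1
      obtain ⟨z, hz, -, -, t, h0, h1, hzt⟩ := h1
      refine ⟨z, ?_, t, h0, h1, hzt⟩
      rw [mem_sdiff]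
      exact ⟨hz, fun hzC => hCblock x (hSC hx) y (hSC hy) hxy z hzC ⟨t, h0, h1, hzt⟩⟩
    rw [hS, mem_image] at hx hy
    obtain ⟨a, ha, rfl⟩ := hx
    obtain ⟨b, hb, rfl⟩ := hy
    rw [mem_range] at ha hb
    obtain ⟨z, hz, hbtw⟩ := hblk
    have hab : a ≠ b := by
      intro h; exact hxy (by rw [h])
    rcases lt_or_gt_of_ne hab with h | h
    · refine ⟨b, hb, a, h, ?_⟩
      rw [hE, mem_filter, mem_product, mem_range, mem_range]
      refine ⟨⟨hlt a ha, hlt b hb⟩, ?_, z, hz, hbtw⟩
      have : a * D < b * D := Nat.mul_lt_mul_of_pos_right h (by omega)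
      simp only; omega
    · refine ⟨a, ha, b, h, ?_⟩
      rw [hE, mem_filter, mem_product, mem_range, mem_range]
      refine ⟨⟨hlt b hb, hlt a ha⟩, ?_, z, hz, hsymm _ _ _ hbtw⟩
      have : b * D < a * D := Nat.mul_lt_mul_of_pos_right h (by omega)
      simp only; omega
  have hcore := core l m hl E hElt hprog
  -- the total weight is at most the number of blockers
  have hweight : ∑ e ∈ E, 1 / ((e.2 : ℝ) - e.1) ≤ ((A \ C).card : ℝ) := by
    have hnn : ∀ e ∈ E, 0 ≤ 1 / ((e.2 : ℝ) - e.1) := by
      intro e he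
      have h2 : (e.1 : ℝ) < e.2 := by exact_mod_cast hElt e he
      apply div_nonneg zero_le_one
      linarith
    calc ∑ e ∈ E, 1 / ((e.2 : ℝ) - e.1)
        ≤ ∑ e ∈ E, ∑ z ∈ A \ C, (if Btw (p e.1) (p e.2) z then 1 / ((e.2 : ℝ) - e.1) else 0) := by
          apply sum_le_sum
          intro e he
          have he' := he
          rw [hE, mem_filter] at he'
          obtain ⟨-, -, z, hz, hb⟩ := he'
          calc 1 / ((e.2 : ℝ) - e.1)
              = (fun z => if Btw (p e.1) (p e.2) z then 1 / ((e.2 : ℝ) - e.1) else 0) z := by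
                simp only
                rw [if_pos hb]
            _ ≤ ∑ z ∈ A \ C, (fun z => if Btw (p e.1) (p e.2) z then
                  1 / ((e.2 : ℝ) - e.1) else 0) z := by
                apply single_le_sum _ hz
                intro z' _
                split_ifs
                · exact hnn e he
                · exact le_refl _
      _ = ∑ z ∈ A \ C, ∑ e ∈ E.filter (fun e => Btw (p e.1) (p e.2) z),
            1 / ((e.2 : ℝ) - e.1) := by
          rw [sum_comm]
          apply sum_congr rfl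
          intro z _
          exact (sum_filter _ _).symm
      _ ≤ ∑ z ∈ A \ C, 1 := by
          apply sum_le_sum
          intro z _
          apply weight_le_one (m := m) (x := fun i => X (p i)) (y := fun i => σ * (p i).2)
            hxmono hconc (s := X z) (t := σ * z.2)
          intro e he
          rw [mem_filter, hE, mem_filter, mem_product, mem_range, mem_range] at he
          obtain ⟨⟨⟨h1, h2⟩, h3, -⟩, t, h0, ht1, hz⟩ := he
          refine ⟨h3, h2, t, h0, ht1, ?_, ?_⟩
          · rw [hz, hX]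
            simp only [Prod.fst_add, Prod.snd_add, Prod.smul_fst, Prod.smul_snd, smul_eq_mul]
            ring
          · rw [hz]
            simp only [Prod.snd_add, Prod.smul_snd, smul_eq_mul]
            ring
      _ = ((A \ C).card : ℝ) := by simp
  have hl3 : (0 : ℝ) ≤ (l : ℝ) ^ 3 - l := by
    have h1 : (2 : ℝ) ≤ l := by exact_mod_cast hl
    nlinarith [mul_nonneg (by linarith : (0 : ℝ) ≤ l) (by nlinarith : (0 : ℝ) ≤ (l : ℝ) ^ 2 - 1)]
  have h1 : 3 * (m : ℝ) * Real.log (m / (2 * l)) ≤ ((l : ℝ) ^ 3 - l) * ((A \ C).card : ℝ) :=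
    le_trans hcore (mul_le_mul_of_nonneg_left hweight hl3)
  -- pass from m to |C| ≤ 2 m
  have hCm : (C.card : ℝ) ≤ 2 * m := by exact_mod_cast hUcard
  have hlpos : (0 : ℝ) < l := by exact_mod_cast (by omega : 0 < l)
  rcases le_or_gt (C.card : ℝ) (4 * l) with hsmall | hbig
  · have : Real.log (C.card / (4 * l)) ≤ 0 := by
      apply Real.log_nonpos
      · positivity
      · rw [div_le_one (by positivity)]; exact hsmall
    have h2 : 3 * (C.card : ℝ) * Real.log (C.card / (4 * l)) ≤ 0 :=
      mul_nonpos_of_nonneg_of_nonpos (by positivity) this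
    have h3 : 0 ≤ 2 * ((l : ℝ) ^ 3 - l) * ((A \ C).card : ℝ) := by positivity
    linarith
  · have hCpos : (0 : ℝ) < C.card := lt_trans (by positivity) hbig
    have h2 : Real.log (C.card / (4 * l)) ≤ Real.log (m / (2 * l)) := by
      apply Real.log_le_log (by positivity)
      rw [div_le_div_iff₀ (by positivity) (by positivity)]
      nlinarith
    have h3 : 0 ≤ Real.log (C.card / (4 * l)) := by
      apply Real.log_nonneg
      rw [le_div_iff₀ (by positivity)]
      linarith
    have h4 : 3 * (C.card : ℝ) * Real.log (C.card / (4 * l)) ≤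
        2 * (3 * (m : ℝ) * Real.log (m / (2 * l))) := by
      have : (C.card : ℝ) * Real.log (C.card / (4 * l)) ≤ (2 * m) * Real.log (m / (2 * l)) :=
        mul_le_mul hCm h2 h3 (by positivity)
      linarith
    linarith

/-- Sets with a positive proportion of their points in convex position. -/
theorem proportion (ε : ℝ) (hε : 0 < ε) (l : ℕ) : ∃ n₀ : ℕ, ∀ A : Finset (ℝ × ℝ), n₀ ≤ A.card →
    (∃ C ⊆ A, (∀ q ∈ C, q ∉ convexHull ℝ ((C : Set (ℝ × ℝ)) \ {q})) ∧
      ε * A.card ≤ C.card) →
    ∃ S : Finset (ℝ × ℝ), S.card = l ∧ PairwiseMutuallyVisible A S := by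
  classical
  set L := max l 2 with hL
  have hL2 : 2 ≤ L := le_max_right _ _
  have hLpos : (0 : ℝ) < L := by exact_mod_cast (by omega : 0 < L)
  set B : ℝ := 4 * L * Real.exp (2 * ((L : ℝ) ^ 3 - L) / (3 * ε)) / ε with hB
  refine ⟨⌈B⌉₊ + 1, fun A hA hC => ?_⟩
  obtain ⟨C, hCA, hconv, hεC⟩ := hC
  have hABig : B < A.card := by
    have h1 : B ≤ ⌈B⌉₊ := Nat.le_ceil B
    have h2 : ((⌈B⌉₊ + 1 : ℕ) : ℝ) ≤ A.card := by exact_mod_cast hA
    push_cast at h2
    linarith
  have key : ∃ S : Finset (ℝ × ℝ), S ⊆ C ∧ S.card = L ∧ PairwiseMutuallyVisible A S := by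
    by_contra hno
    push Not at hno
    have hmain := main L hL2 A C hCA hconv (fun S hS hc hv => hno S hS hc hv)
    have hl3 : (0 : ℝ) ≤ (L : ℝ) ^ 3 - L := by
      have h1 : (2 : ℝ) ≤ L := by exact_mod_cast hL2
      nlinarith [mul_nonneg hLpos.le (by nlinarith : (0 : ℝ) ≤ (L : ℝ) ^ 2 - 1)]
    have hsd : ((A \ C).card : ℝ) ≤ A.card := by
      exact_mod_cast card_le_card sdiff_subset
    have hBpos : 0 < B := by rw [hB]; positivity
    have hApos : (0 : ℝ) < A.card := lt_trans hBpos hABig
    have hCpos : (0 : ℝ) < C.card := lt_of_lt_of_le (mul_pos hε hApos) hεC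
    have h1 : 3 * (C.card : ℝ) * Real.log (C.card / (4 * L)) ≤
        2 * ((L : ℝ) ^ 3 - L) * (C.card / ε) := by
      refine le_trans hmain (mul_le_mul_of_nonneg_left (le_trans hsd ?_) (by positivity))
      rw [le_div_iff₀ hε]
      linarith
    have h2 : Real.log (C.card / (4 * L)) ≤ 2 * ((L : ℝ) ^ 3 - L) / (3 * ε) := by
      rw [le_div_iff₀ (by positivity)]
      have h3 : 3 * (C.card : ℝ) * Real.log (C.card / (4 * L)) * ε ≤
          2 * ((L : ℝ) ^ 3 - L) * C.card := by
        have := mul_le_mul_of_nonneg_right h1 hε.le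
        have e : 2 * ((L : ℝ) ^ 3 - L) * (C.card / ε) * ε = 2 * ((L : ℝ) ^ 3 - L) * C.card := by
          field_simp
        linarith
      by_contra hcon
      push Not at hcon
      have := mul_lt_mul_of_pos_left hcon hCpos
      nlinarith
    have h3 : (C.card : ℝ) / (4 * L) ≤ Real.exp (2 * ((L : ℝ) ^ 3 - L) / (3 * ε)) := by
      rwa [Real.log_le_iff_le_exp (by positivity)] at h2
    have h4 : (C.card : ℝ) ≤ 4 * L * Real.exp (2 * ((L : ℝ) ^ 3 - L) / (3 * ε)) := by
      rw [div_le_iff₀ (by positivity)] at h3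
      linarith
    have h5 : (A.card : ℝ) ≤ B := by
      rw [hB, le_div_iff₀ hε]
      linarith
    linarith
  obtain ⟨S, hSC, hScard, hSv⟩ := key
  obtain ⟨T, hTS, hTcard⟩ := exists_subset_card_eq (s := S) (n := l) (by rw [hScard]; exact le_max_left _ _)
  exact ⟨T, hTcard, hTS.trans hSv.1, fun x hx y hy hxy => hSv.2 x (hTS hx) y (hTS hy) hxy⟩

end Pool.Agent.BLBC
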